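import Mathlib

/-!
# The group generated by unit vectors and ladders, for a regular uncountable cardinal

`W` is a well-ordered set of regular uncountable order type. `LG` is the group of functions
`W → ℤ` generated by the unit vectors and by the indicator functions of cofinal sets of order type
`ω` in the initial segments of countable cofinality, with the lexicographic order. This follows
`Pool.Agent.V11203.Lad`, where `W` is `ω₁`.
-/

set_option autoImplicit false

open Set Topology Filter Cardinal

namespace Pool.Agent.V11281.Lad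

/-- well-orders of regular uncountable type -/
class RegW (W : Type) extends LinearOrder W, WellFoundedLT W where
  reg : (Cardinal.mk W).IsRegular
  unc : Cardinal.aleph0 < Cardinal.mk W
  small_Iio : ∀ w : W, Cardinal.mk (Iio w) < Cardinal.mk W

/-- small sets -/
def Sm (W : Type) {α : Type} (s : Set α) : Prop := Cardinal.mk s < Cardinal.mk W

variable {W : Type} [RegW W]

lemma Sm.mono {α : Type} {s t : Set α} (ht : Sm W t) (h : s ⊆ t) : Sm W s :=
  lt_of_le_of_lt (Cardinal.mk_le_mk_of_subset h) ht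

lemma sm_of_countable {α : Type} {s : Set α} (hs : s.Countable) : Sm W s :=
  lt_of_le_of_lt (Cardinal.le_aleph0_iff_set_countable.2 hs) RegW.unc

lemma sm_empty {α : Type} : Sm W (∅ : Set α) := sm_of_countable countable_empty

lemma sm_singleton {α : Type} (a : α) : Sm W ({a} : Set α) := sm_of_countable (countable_singleton a)

lemma Sm.image {α β : Type} {s : Set α} (hs : Sm W s) (f : α → β) : Sm W (f '' s) :=
  lt_of_le_of_lt Cardinal.mk_image_le hs

lemma Sm.union {α : Type} {s t : Set α} (hs : Sm W s) (ht : Sm W t) : Sm W (s ∪ t) :=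
  lt_of_le_of_lt (Cardinal.mk_union_le s t)
    (Cardinal.add_lt_of_lt RegW.unc.le hs ht)

lemma Sm.insert {α : Type} {s : Set α} (hs : Sm W s) (a : α) : Sm W (Insert.insert a s) := by
  rw [insert_eq]
  exact (sm_singleton a).union hs

lemma Sm.biUnion {α β : Type} {s : Set α} {t : α → Set β} (hs : Sm W s)
    (h : ∀ a ∈ s, Sm W (t a)) : Sm W (⋃ a ∈ s, t a) :=
  (Cardinal.card_biUnion_lt_iff_forall_of_isRegular RegW.reg hs).2 h

lemma sm_iUnion {α : Type} {t : ℕ → Set α} (h : ∀ n, Sm W (t n)) : Sm W (⋃ n, t n) := by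
  have : (⋃ n, t n) = ⋃ n ∈ (univ : Set ℕ), t n := by simp
  rw [this]
  exact Sm.biUnion (sm_of_countable (to_countable _)) fun n _ => h n

lemma not_sm_univ : ¬ Sm W (univ : Set W) := by
  intro h
  unfold Sm at h
  rw [Cardinal.mk_univ] at h
  exact lt_irrefl _ h

lemma sm_Iio (w : W) : Sm W (Iio w) := RegW.small_Iio w

lemma sm_Iic (w : W) : Sm W (Iic w) := by
  have : Iic w = Insert.insert w (Iio w) := by
    ext x
    simp [le_iff_eq_or_lt]
  rw [this]
  exact Sm.insert (RegW.small_Iio w) w

/-- small sets are bounded -/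
lemma exists_bound {s : Set W} (hs : Sm W s) : ∃ b, ∀ a ∈ s, a < b := by
  by_contra hcon
  push Not at hcon
  apply not_sm_univ (W := W)
  have h : (univ : Set W) ⊆ ⋃ a ∈ s, Iic a := by
    intro b _
    obtain ⟨a, ha, hab⟩ := hcon b
    exact mem_biUnion ha hab
  exact (hs.biUnion fun a _ => sm_Iic a).mono h

lemma exists_bound_range {ι : Type} [Countable ι] (f : ι → W) : ∃ b, ∀ i, f i < b := by
  obtain ⟨b, hb⟩ := exists_bound (sm_of_countable (countable_range f))
  exact ⟨b, fun i => hb _ (mem_range_self i)⟩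

lemma exists_gt' (a : W) : ∃ b, a < b := by
  obtain ⟨b, hb⟩ := exists_bound (sm_singleton a)
  exact ⟨b, hb a rfl⟩

instance : NoMaxOrder W := ⟨exists_gt'⟩

instance : Nonempty W := by
  by_contra h
  rw [not_nonempty_iff] at h
  have h1 := RegW.unc (W := W)
  rw [Cardinal.mk_eq_zero] at h1
  simp at h1

/-- limit elements of countable cofinality -/
def IsLim (d : W) : Prop :=
  ∃ g : ℕ → W, StrictMono g ∧ (∀ n, g n < d) ∧ ∀ b < d, ∃ N, b < g N

lemma IsLim.exists_lt {d : W} (hd : IsLim d) : ∃ a, a < d := by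
  obtain ⟨g, _, h, _⟩ := hd
  exact ⟨g 0, h 0⟩

lemma IsLim.exists_between {d : W} (hd : IsLim d) {a : W} (ha : a < d) : ∃ b, a < b ∧ b < d := by
  obtain ⟨g, _, h, h2⟩ := hd
  obtain ⟨N, hN⟩ := h2 a ha
  exact ⟨g N, hN, h N⟩

lemma exists_ladder {d : W} (hd : IsLim d) :
    ∃ g : ℕ → W, (∀ n, g n < d) ∧ ∀ b < d, ∃ N, ∀ n, N ≤ n → b ≤ g n := by
  obtain ⟨g, h1, h2, h3⟩ := hd
  refine ⟨g, h2, fun b hb => ?_⟩
  obtain ⟨N, hN⟩ := h3 b hb
  exact ⟨N, fun n hn => (hN.trans_le (h1.monotone hn)).le⟩

open Classical in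
/-- the ladder -/
noncomputable def lad (d : W) (hd : IsLim d) : ℕ → W := Classical.choose (exists_ladder hd)

lemma lad_lt (d : W) (hd : IsLim d) (n : ℕ) : lad d hd n < d :=
  (Classical.choose_spec (exists_ladder hd)).1 n

lemma lad_cofinal (d : W) (hd : IsLim d) {b : W} (hb : b < d) :
    ∃ N, ∀ n, N ≤ n → b ≤ lad d hd n :=
  (Classical.choose_spec (exists_ladder hd)).2 b hb

open Classical in
/-- the indicator function of the ladder (zero at elements which are not limits) -/
noncomputable def av (d : W) : W → ℤ := fun a =>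
  if h : ∃ hd : IsLim d, ∃ n, lad d hd n = a then 1 else 0

lemma av_eq_zero {d a : W} (h : d ≤ a) : av d a = 0 := by
  unfold av
  rw [dif_neg]
  rintro ⟨hd, n, hn⟩
  have := lad_lt d hd n
  rw [hn] at this
  exact absurd this (not_lt.2 h)

lemma av_of_not_lim {d : W} (hd : ¬ IsLim d) : av d = 0 := by
  funext a
  unfold av
  rw [dif_neg]
  · rfl
  · rintro ⟨h, -⟩
    exact hd h

lemma av_cofinal {d : W} (hd : IsLim d) {b : W} (hb : b < d) :
    ∃ a, b ≤ a ∧ a < d ∧ av d a ≠ 0 := by
  obtain ⟨N, hN⟩ := lad_cofinal d hd hb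
  refine ⟨lad d hd N, hN N le_rfl, lad_lt d hd N, ?_⟩
  unfold av
  rw [dif_pos ⟨hd, N, rfl⟩]
  exact one_ne_zero

lemma av_finite (d b : W) (hb : b < d) : {a | a < b ∧ av d a ≠ 0}.Finite := by
  by_cases hd : IsLim d
  · obtain ⟨N, hN⟩ := lad_cofinal d hd hb
    refine ((finite_Iio N).image (lad d hd)).subset ?_
    rintro a ⟨hab, ha⟩
    unfold av at ha
    split_ifs at ha with h
    · obtain ⟨hd', n, hn⟩ := h
      refine ⟨n, ?_, hn⟩
      rw [mem_Iio]
      by_contra hcon
      push Not at hcon
      have := hN n hcon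
      rw [hn] at this
      exact absurd hab (not_lt.2 this)
    · exact absurd rfl ha
  · rw [av_of_not_lim hd]
    simp

open Classical in
/-- the unit vectors -/
noncomputable def ev (b : W) : W → ℤ := Pi.single b 1

lemma ev_self (b : W) : ev b b = 1 := by simp [ev]

lemma ev_ne {a b : W} (h : a ≠ b) : ev b a = 0 := by simp [ev, h]

/-- the generators with index less than `b` -/
def gens (b : W) : Set (W → ℤ) := (ev '' Iio b) ∪ (av '' Iio b)

/-- the subgroup generated by the generators with index less than `b` -/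
noncomputable def GS (b : W) : AddSubgroup (W → ℤ) := AddSubgroup.closure (gens b)

/-- the subgroup generated by the unit vectors and the ladders -/
noncomputable def GG (W : Type) [RegW W] : AddSubgroup (W → ℤ) :=
  AddSubgroup.closure (range ev ∪ range av)

lemma gens_mono {a b : W} (h : a ≤ b) : gens a ⊆ gens b := by
  have : Iio a ⊆ Iio b := Iio_subset_Iio h
  exact union_subset_union (image_mono this) (image_mono this)

lemma GS_mono {a b : W} (h : a ≤ b) : GS a ≤ GS b := AddSubgroup.closure_mono (gens_mono h)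

lemma GS_le (b : W) : GS b ≤ GG W := by
  refine AddSubgroup.closure_mono ?_
  exact union_subset_union (image_subset_range _ _) (image_subset_range _ _)

lemma ev_mem {a b : W} (h : a < b) : ev a ∈ GS b :=
  AddSubgroup.subset_closure (Or.inl ⟨a, h, rfl⟩)

lemma av_mem {a b : W} (h : a < b) : av a ∈ GS b :=
  AddSubgroup.subset_closure (Or.inr ⟨a, h, rfl⟩)

lemma sm_GS (b : W) : Sm W (GS b : Set (W → ℤ)) := by
  have hg : Sm W (gens b) :=
    ((sm_Iio b).image _).union ((sm_Iio b).image _)
  have h1 : (Submodule.span ℤ (gens b)).toAddSubgroup = GS b := by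
    unfold GS
    rw [Submodule.span_int_eq_addSubgroupClosure]
  rw [← h1]
  have h2 : ((Submodule.span ℤ (gens b)).toAddSubgroup : Set (W → ℤ)) =
      range (Finsupp.linearCombination ℤ (Subtype.val : gens b → (W → ℤ))) := by
    have := Finsupp.range_linearCombination ℤ (v := (Subtype.val : gens b → (W → ℤ)))
    rw [Subtype.range_coe] at this
    rw [← LinearMap.coe_range, this]
    rfl
  rw [h2]
  refine lt_of_le_of_lt Cardinal.mk_range_le ?_
  by_cases hne : Nonempty (gens b)
  · rw [Cardinal.mk_finsupp_lift_of_infinite']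
    simp only [Cardinal.lift_id, Cardinal.mk_int]
    exact max_lt hg RegW.unc
  · rw [not_nonempty_iff] at hne
    exact lt_of_le_of_lt (Cardinal.mk_le_aleph0) RegW.unc

lemma exists_mem_GS {x : W → ℤ} (hx : x ∈ GG W) : ∃ b, x ∈ GS b := by
  unfold GG at hx
  induction hx using AddSubgroup.closure_induction with
  | mem x hx =>
    rcases hx with ⟨a, rfl⟩ | ⟨a, rfl⟩
    · obtain ⟨b, hb⟩ := exists_gt' a
      exact ⟨b, ev_mem hb⟩
    · obtain ⟨b, hb⟩ := exists_gt' a
      exact ⟨b, av_mem hb⟩
  | zero => exact ⟨Classical.arbitrary W, zero_mem _⟩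
  | add x y _ _ hx hy =>
    obtain ⟨a, ha⟩ := hx
    obtain ⟨b, hb⟩ := hy
    exact ⟨max a b, add_mem (GS_mono (le_max_left _ _) ha) (GS_mono (le_max_right _ _) hb)⟩
  | neg x _ hx =>
    obtain ⟨a, ha⟩ := hx
    exact ⟨a, neg_mem ha⟩

/-- the elements of `GS b` are supported below `b` -/
lemma GS_support {b : W} {x : W → ℤ} (hx : x ∈ GS b) : ∀ a, b ≤ a → x a = 0 := by
  unfold GS at hx
  induction hx using AddSubgroup.closure_induction with
  | mem x hx =>
    intro a ha
    rcases hx with ⟨c, hc, rfl⟩ | ⟨c, hc, rfl⟩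
    · exact ev_ne (ne_of_gt (lt_of_lt_of_le hc ha))
    · exact av_eq_zero (le_of_lt (lt_of_lt_of_le hc ha))
  | zero => intro a _; rfl
  | add x y _ _ hx hy =>
    intro a ha
    rw [Pi.add_apply, hx a ha, hy a ha, add_zero]
  | neg x _ hx =>
    intro a ha
    rw [Pi.neg_apply, hx a ha, neg_zero]

/-- `x` agrees below `e` with an element which is generated below `e` -/
def Good (x : W → ℤ) (e : W) : Prop := ∃ b, b < e ∧ ∃ y ∈ GS b, ∀ a, a < e → x a = y a

lemma good_of_mem {x : W → ℤ} {b e : W} (hb : b < e) (hx : x ∈ GS b) : Good x e :=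
  ⟨b, hb, x, hx, fun _ _ => rfl⟩

lemma good_zero {e : W} (he : IsLim e) : Good 0 e := by
  obtain ⟨a, ha⟩ := he.exists_lt
  exact good_of_mem ha (zero_mem _)

lemma good_add {x y : W → ℤ} {e : W} (hx : Good x e) (hy : Good y e) : Good (x + y) e := by
  obtain ⟨b, hb, u, hu, hxu⟩ := hx
  obtain ⟨c, hc, v, hv, hyv⟩ := hy
  refine ⟨max b c, max_lt hb hc, u + v, add_mem (GS_mono (le_max_left _ _) hu)
    (GS_mono (le_max_right _ _) hv), fun a ha => ?_⟩
  rw [Pi.add_apply, Pi.add_apply, hxu a ha, hyv a ha]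

lemma good_neg {x : W → ℤ} {e : W} (hx : Good x e) : Good (-x) e := by
  obtain ⟨b, hb, u, hu, hxu⟩ := hx
  exact ⟨b, hb, -u, neg_mem hu, fun a ha => by rw [Pi.neg_apply, Pi.neg_apply, hxu a ha]⟩

lemma good_ev (b : W) {e : W} (he : IsLim e) : Good (ev b) e := by
  rcases lt_or_ge b e with h | h
  · obtain ⟨c, hbc, hc⟩ := he.exists_between h
    exact good_of_mem hc (ev_mem hbc)
  · obtain ⟨c, hc⟩ := he.exists_lt
    exact ⟨c, hc, 0, zero_mem _, fun a ha => ev_ne (ne_of_lt (lt_of_lt_of_le ha h))⟩

lemma good_av {d e : W} (he : IsLim e) (hde : e ≠ d) : Good (av d) e := by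
  classical
  rcases lt_or_gt_of_ne hde with h | h
  · -- `e < d`: the restriction of the ladder is a finite sum of unit vectors
    set F := (av_finite d e h).toFinset with hF
    have hFmem : ∀ a, a ∈ F ↔ a < e ∧ av d a ≠ 0 := fun a => by
      rw [hF, Set.Finite.mem_toFinset]
      rfl
    -- a bound of the finite set
    obtain ⟨b, hb, hbF⟩ : ∃ b, b < e ∧ ∀ a ∈ F, a < b := by
      have : ∀ s : Finset W, (∀ a ∈ s, a < e) → ∃ b, b < e ∧ ∀ a ∈ s, a < b := by
        intro s
        induction s using Finset.induction_on with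
        | empty =>
          intro _
          obtain ⟨c, hc⟩ := he.exists_lt
          exact ⟨c, hc, by simp⟩
        | insert a s _ ih =>
          intro hs
          obtain ⟨b, hb, hbs⟩ := ih fun a ha => hs a (Finset.mem_insert_of_mem ha)
          obtain ⟨c, hac, hc⟩ := he.exists_between (hs a (Finset.mem_insert_self _ _))
          refine ⟨max b c, max_lt hb hc, fun x hx => ?_⟩
          rcases Finset.mem_insert.1 hx with rfl | hx
          · exact lt_of_lt_of_le hac (le_max_right _ _)
          · exact lt_of_lt_of_le (hbs x hx) (le_max_left _ _)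
      exact this F fun a ha => ((hFmem a).1 ha).1
    refine ⟨b, hb, ∑ c ∈ F, av d c • ev c, sum_mem fun c hc => zsmul_mem (ev_mem (hbF c hc)) _,
      fun a ha => ?_⟩
    rw [Finset.sum_apply]
    simp only [Pi.smul_apply, smul_eq_mul]
    by_cases haF : a ∈ F
    · rw [Finset.sum_eq_single a]
      · rw [ev_self, mul_one]
      · intro c _ hca
        rw [ev_ne hca.symm, mul_zero]
      · intro h
        exact absurd haF h
    · rw [Finset.sum_eq_zero]
      · by_contra hne
        exact haF ((hFmem a).2 ⟨ha, hne⟩)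
      · intro c hc
        have : a ≠ c := by
          rintro rfl
          exact haF hc
        rw [ev_ne this, mul_zero]
  · obtain ⟨c, hdc, hc⟩ := he.exists_between h
    exact good_of_mem hc (av_mem hdc)

/-- only finitely many limit elements are bad for `x` -/
lemma finite_bad {x : W → ℤ} (hx : x ∈ GG W) : {e | IsLim e ∧ ¬ Good x e}.Finite := by
  unfold GG at hx
  induction hx using AddSubgroup.closure_induction with
  | mem x hx =>
    rcases hx with ⟨a, rfl⟩ | ⟨a, rfl⟩
    · refine (finite_empty (α := W)).subset ?_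
      rintro e ⟨he, hbad⟩
      exact hbad (good_ev a he)
    · refine (finite_singleton a).subset ?_
      rintro e ⟨he, hbad⟩
      by_contra hne
      exact hbad (good_av he hne)
  | zero =>
    refine (finite_empty (α := W)).subset ?_
    rintro e ⟨he, hbad⟩
    exact hbad (good_zero he)
  | add x y _ _ hx hy =>
    refine (hx.union hy).subset ?_
    rintro e ⟨he, hbad⟩
    by_cases h : Good x e
    · exact Or.inr ⟨he, fun h' => hbad (good_add h h')⟩
    · exact Or.inl ⟨he, h⟩
  | neg x _ hx =>
    refine hx.subset ?_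
    rintro e ⟨he, hbad⟩
    exact ⟨he, fun h => hbad (good_neg h)⟩

/-- closure points of functions -/
lemma exists_closed (f : W → W) (b : W) : ∃ e, b < e ∧ IsLim e ∧ ∀ a, a < e → f a < e := by
  have step : ∀ c : W, ∃ c', c < c' ∧ ∀ a, a ≤ c → f a < c' := by
    intro c
    have hct : Sm W (f '' (Iic c) ∪ {c}) := ((sm_Iic c).image f).union (sm_singleton c)
    obtain ⟨c', hc'⟩ := exists_bound hct
    exact ⟨c', hc' c (Or.inr rfl), fun a ha => hc' _ (Or.inl ⟨a, ha, rfl⟩)⟩
  choose F hF1 hF2 using step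
  set u : ℕ → W := fun n => F^[n] b with hu
  have hus : ∀ n, u (n + 1) = F (u n) := fun n => Function.iterate_succ_apply' F n b
  have hlt : ∀ n, u n < u (n + 1) := fun n => by rw [hus]; exact hF1 _
  have hmono : StrictMono u := strictMono_nat_of_lt_succ hlt
  -- the least upper bound
  obtain ⟨c, hc⟩ := exists_bound_range u
  have hne : {c : W | ∀ n, u n < c}.Nonempty := ⟨c, hc⟩
  set e := WellFounded.min wellFounded_lt _ hne with he
  have he1 : ∀ n, u n < e := WellFounded.min_mem wellFounded_lt _ hne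
  have he2 : ∀ a, a < e → ∃ n, a ≤ u n := by
    intro a ha
    by_contra hcon
    push Not at hcon
    exact WellFounded.not_lt_min wellFounded_lt _ (show a ∈ {c : W | ∀ n, u n < c} from hcon) ha
  refine ⟨e, he1 0, ⟨u, hmono, he1, fun a ha => ?_⟩, fun a ha => ?_⟩
  · obtain ⟨n, hn⟩ := he2 a ha
    exact ⟨n + 1, lt_of_le_of_lt hn (hlt n)⟩
  · obtain ⟨n, hn⟩ := he2 a ha
    have h1 := hF2 (u n) a hn
    rw [← hus] at h1
    exact h1.trans (he1 _)

/-- Lemma A: if every point has a neighbourhood meeting `A` in a small set, then `A` is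
small -/
theorem sm_of_locally {A : Set (W → ℤ)} (hA : A ⊆ GG W)
    (h : ∀ y ∈ GG W, ∃ d : W, Sm W {x ∈ A | ∀ a, a < d → x a = y a}) : Sm W A := by
  classical
  choose! f hf using h
  -- bound of `f` on `GS b`
  have hb : ∀ b : W, ∃ c, ∀ y ∈ GS b, f y < c := by
    intro b
    obtain ⟨c, hc⟩ := exists_bound ((sm_GS b).image f)
    exact ⟨c, fun y hy => hc _ ⟨y, hy, rfl⟩⟩
  choose F hF using hb
  -- infinitely many closure points
  choose E hE1 hE2 hE3 using fun b => exists_closed F b
  set u : ℕ → W := fun n => E^[n] (Classical.arbitrary W) with hu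
  have hus : ∀ n, u (n + 1) = E (u n) := fun n => Function.iterate_succ_apply' E n _
  have hmono : StrictMono u := strictMono_nat_of_lt_succ fun n => by rw [hus]; exact hE1 _
  -- the small set
  have hN : Sm W (⋃ n : ℕ, ⋃ y ∈ (GS (u (n + 1)) : Set (W → ℤ)),
      {x ∈ A | ∀ a, a < f y → x a = y a}) := by
    refine sm_iUnion fun n => (sm_GS _).biUnion fun y hy => hf y (GS_le _ hy)
  refine hN.mono ?_
  intro x hx
  have hfin := finite_bad (hA hx)
  -- a good closure point
  obtain ⟨n, hn⟩ : ∃ n, Good x (u (n + 1)) := by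
    by_contra hcon
    push Not at hcon
    have hinf : (range fun n => u (n + 1)).Infinite :=
      infinite_range_of_injective fun a b hab => by
        have := hmono.injective hab
        omega
    apply hinf
    refine hfin.subset ?_
    rintro _ ⟨n, rfl⟩
    refine ⟨?_, hcon n⟩
    change IsLim (u (n + 1))
    rw [hus]
    exact hE2 _
  obtain ⟨b, hb, y, hy, hxy⟩ := hn
  refine mem_iUnion.2 ⟨n, mem_iUnion₂.2 ⟨y, GS_mono hb.le hy, hx, fun a ha => hxy a ?_⟩⟩
  refine ha.trans ?_
  have h1 : F b < u (n + 1) := by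
    rw [hus] at hb ⊢
    exact hE3 _ b hb
  exact (hF b y hy).trans h1

end Pool.Agent.V11281.Lad
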