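import Pool.Agent.V11281.Lad.Main

/-!
# An unbounded chain of regular uncountable length in `ω^ω`, and `ω^ω`-bases
-/

set_option autoImplicit false

open Set Topology Filter Cardinal

namespace Pool.Agent.V11281.Lad

/-- eventual domination -/
def Dom (f g : ℕ → ℕ) : Prop := ∀ᶠ n in atTop, f n ≤ g n

lemma Dom.refl (f : ℕ → ℕ) : Dom f f := Eventually.of_forall fun _ => le_rfl

lemma Dom.trans {f g h : ℕ → ℕ} (h1 : Dom f g) (h2 : Dom g h) : Dom f h := by
  filter_upwards [h1, h2] with n h1 h2 using h1.trans h2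

lemma Dom.trans_le {f g h : ℕ → ℕ} (h1 : Dom f g) (h2 : g ≤ h) : Dom f h := by
  filter_upwards [h1] with n h1 using h1.trans (h2 n)

/-- the cardinals of unbounded families -/
def UB : Set Cardinal.{0} := {c | ∃ S : Set (ℕ → ℕ), #S = c ∧ ¬ ∃ g, ∀ f ∈ S, Dom f g}

lemma UB_nonempty : UB.Nonempty := by
  refine ⟨#(univ : Set (ℕ → ℕ)), univ, rfl, ?_⟩
  rintro ⟨g, hg⟩
  have := hg (fun n => g n + 1) (mem_univ _)
  obtain ⟨N, hN⟩ := eventually_atTop.1 this
  have := hN N le_rfl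
  simp at this

/-- the bounding number -/
noncomputable def bb : Cardinal.{0} := sInf UB

lemma bb_mem : ∃ S : Set (ℕ → ℕ), #S = bb ∧ ¬ ∃ g, ∀ f ∈ S, Dom f g := csInf_mem UB_nonempty

lemma bounded_of_lt {T : Set (ℕ → ℕ)} (hT : #T < bb) : ∃ g, ∀ f ∈ T, Dom f g := by
  by_contra hcon
  have : bb ≤ #T := csInf_le' ⟨T, rfl, hcon⟩
  exact absurd hT (not_lt.2 this)

lemma bounded_of_countable {T : Set (ℕ → ℕ)} (hT : T.Countable) : ∃ g, ∀ f ∈ T, Dom f g := by
  rcases T.eq_empty_or_nonempty with rfl | hne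
  · exact ⟨0, by simp⟩
  obtain ⟨u, hu⟩ := hT.exists_eq_range hne
  refine ⟨fun m => (Finset.range (m + 1)).sup fun n => u n m, fun f hf => ?_⟩
  rw [hu] at hf
  obtain ⟨n, rfl⟩ := hf
  refine eventually_atTop.2 ⟨n, fun m hm => ?_⟩
  exact Finset.le_sup (f := fun n => u n m) (Finset.mem_range.2 (by omega))

lemma aleph0_lt_bb : ℵ₀ < bb := by
  obtain ⟨S, hS, hb⟩ := bb_mem
  by_contra hcon
  push Not at hcon
  rw [← hS, Cardinal.le_aleph0_iff_set_countable] at hcon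
  exact hb (bounded_of_countable hcon)

/-- the index set -/
abbrev BW : Type := bb.ord.ToType

lemma mk_BW : #BW = bb := Cardinal.mk_ord_toType bb

lemma small_Iio_BW (w : BW) : #(Iio w) < bb := by
  simpa using Cardinal.mk_Iio_lt w

open Classical in
/-- a bound of a family, if there is one -/
noncomputable def bd (T : Set (ℕ → ℕ)) : ℕ → ℕ :=
  if h : ∃ g, ∀ f ∈ T, Dom f g then Classical.choose h else 0

lemma bd_spec {T : Set (ℕ → ℕ)} (h : ∃ g, ∀ f ∈ T, Dom f g) : ∀ f ∈ T, Dom f (bd T) := by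
  unfold bd
  rw [dif_pos h]
  exact Classical.choose_spec h

/-- the chain -/
theorem exists_chain : ∃ F : BW → (ℕ → ℕ), (∀ v w, v ≤ w → Dom (F v) (F w)) ∧
    ¬ ∃ g, ∀ w, Dom (F w) g := by
  obtain ⟨S, hS, hb⟩ := bb_mem
  have hcard : #BW = #S := by rw [mk_BW, hS]
  obtain ⟨e⟩ := Cardinal.eq.1 hcard
  let R : (w : BW) → ((v : BW) → v < w → (ℕ → ℕ)) → (ℕ → ℕ) := fun w rec =>
    bd ({f | ∃ v, ∃ h : v < w, rec v h = f} ∪ {(e w : ℕ → ℕ)})
  let F : BW → (ℕ → ℕ) := WellFounded.fix (wellFounded_lt (α := BW)) R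
  have hF : ∀ w, F w = bd (F '' (Iio w) ∪ {(e w : ℕ → ℕ)}) := by
    intro w
    have h1 : F w = R w (fun v _ => F v) := WellFounded.fix_eq _ R w
    rw [h1]
    have h2 : {f | ∃ v, ∃ _h : v < w, F v = f} = F '' (Iio w) := by
      ext f
      simp only [mem_ofPred_eq, mem_image, mem_Iio, exists_prop]
    change bd ({f | ∃ v, ∃ _h : v < w, F v = f} ∪ {(e w : ℕ → ℕ)}) = _
    rw [h2]
  have hbdd : ∀ w, ∀ f ∈ F '' (Iio w) ∪ {(e w : ℕ → ℕ)}, Dom f (F w) := by
    intro w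
    rw [hF w]
    apply bd_spec
    apply bounded_of_lt
    refine lt_of_le_of_lt (Cardinal.mk_union_le _ _) ?_
    refine Cardinal.add_lt_of_lt aleph0_lt_bb.le
      (lt_of_le_of_lt Cardinal.mk_image_le (small_Iio_BW w)) ?_
    rw [Cardinal.mk_singleton]
    exact lt_trans Cardinal.one_lt_aleph0 aleph0_lt_bb
  refine ⟨F, ?_, ?_⟩
  · intro v w hvw
    rcases eq_or_lt_of_le hvw with rfl | h
    · exact Dom.refl _
    · exact hbdd w _ (Or.inl ⟨v, h, rfl⟩)
  · rintro ⟨g, hg⟩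
    apply hb
    refine ⟨g, fun f hf => ?_⟩
    have h1 := hbdd (e.symm ⟨f, hf⟩) _ (Or.inr rfl)
    rw [Equiv.apply_symm_apply] at h1
    exact h1.trans (hg _)

/-- the chain -/
noncomputable def ch : BW → (ℕ → ℕ) := Classical.choose exists_chain

lemma ch_mono {v w : BW} (h : v ≤ w) : Dom (ch v) (ch w) :=
  (Classical.choose_spec exists_chain).1 v w h

lemma ch_unbounded : ¬ ∃ g, ∀ w, Dom (ch w) g := (Classical.choose_spec exists_chain).2

lemma isRegular_bb : bb.IsRegular := by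
  refine ⟨aleph0_lt_bb.le, ?_⟩
  rw [← Ordinal.cof_toType, Order.le_cof_iff]
  intro s hs
  by_contra hcon
  push Not at hcon
  obtain ⟨g, hg⟩ := bounded_of_lt (lt_of_le_of_lt (Cardinal.mk_image_le (f := ch) (s := s)) hcon)
  apply ch_unbounded
  refine ⟨g, fun w => ?_⟩
  obtain ⟨v, hv, hwv⟩ := hs w
  exact (ch_mono hwv).trans (hg _ ⟨v, hv, rfl⟩)

noncomputable instance : RegW BW where
  reg := by rw [mk_BW]; exact isRegular_bb
  unc := by rw [mk_BW]; exact aleph0_lt_bb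
  small_Iio w := by rw [mk_BW]; exact small_Iio_BW w

/-- the least index not dominated by `f` -/
noncomputable def al (f : ℕ → ℕ) : BW :=
  WellFounded.min wellFounded_lt {w | ¬ Dom (ch w) f} (by
    by_contra hcon
    rw [not_nonempty_iff_eq_empty, eq_empty_iff_forall_notMem] at hcon
    exact ch_unbounded ⟨f, fun w => by
      by_contra h
      exact hcon w h⟩)

lemma al_spec (f : ℕ → ℕ) : ¬ Dom (ch (al f)) f := by
  have : al f ∈ {w | ¬ Dom (ch w) f} := WellFounded.min_mem _ _ _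
  exact this

lemma al_min {f : ℕ → ℕ} {w : BW} (h : ¬ Dom (ch w) f) : al f ≤ w := by
  by_contra hcon
  push Not at hcon
  exact WellFounded.not_lt_min wellFounded_lt {w | ¬ Dom (ch w) f} h hcon

lemma al_mono {f g : ℕ → ℕ} (h : f ≤ g) : al f ≤ al g :=
  al_min fun h' => al_spec g (h'.trans_le h)

lemma le_al (w : BW) : w ≤ al (ch w) := by
  by_contra hcon
  push Not at hcon
  exact al_spec (ch w) (ch_mono hcon.le)

/-- the group has an `ω^ω`-base -/
theorem exists_base (x : LG BW) : ∃ U : (ℕ → ℕ) → Set (LG BW), (∀ f g, f ≤ g → U g ⊆ U f) ∧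
    (∀ f, U f ∈ 𝓝 x) ∧ ∀ V ∈ 𝓝 x, ∃ f, U f ⊆ V := by
  refine ⟨fun f => cyl x (al f), fun f g h => cyl_mono x (al_mono h),
    fun f => (isOpen_cyl x _).mem_nhds (mem_cyl_self x _), fun V hV => ?_⟩
  obtain ⟨d, hd⟩ := (mem_nhds_iff' x V).1 hV
  exact ⟨ch d, (cyl_mono x (le_al d)).trans hd⟩

end Pool.Agent.V11281.Lad
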