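import Pool.Agent.V11281.Lad.Basic

/-!
# The lexicographically ordered group of ladders has no suitable set (regular cardinals)

This follows `Pool.Agent.V11203.Lad.Main`.
-/

set_option autoImplicit false

open Set Topology Filter Cardinal

namespace Pool.Agent.V11281.Lad

/-- the group generated by the unit vectors and the ladders, as a type -/
def LG (W : Type) [RegW W] : Type := GG W

variable {W : Type} [RegW W]

noncomputable instance : AddCommGroup (LG W) := inferInstanceAs (AddCommGroup (GG W))

/-- the underlying function -/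
def LG.fn (x : LG W) : W → ℤ := Subtype.val (p := fun x => x ∈ GG W) x

lemma fn_injective : Function.Injective (LG.fn (W := W)) := Subtype.val_injective

@[simp] lemma fn_add (x y : LG W) : (x + y).fn = x.fn + y.fn := rfl

@[simp] lemma fn_neg (x : LG W) : (-x).fn = -x.fn := rfl

@[simp] lemma fn_sub (x y : LG W) : (x - y).fn = x.fn - y.fn := rfl

@[simp] lemma fn_zero : (0 : LG W).fn = 0 := rfl

lemma fn_mem (x : LG W) : x.fn ∈ GG W := Subtype.property (p := fun x => x ∈ GG W) x

/-- elements -/
def LG.mk (x : W → ℤ) (hx : x ∈ GG W) : LG W := (⟨x, hx⟩ : GG W)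

@[simp] lemma fn_mk (x : W → ℤ) (hx : x ∈ GG W) : (LG.mk x hx).fn = x := rfl

/-- the lexicographic order -/
noncomputable instance : LinearOrder (LG W) :=
  LinearOrder.lift' (fun x : LG W => (toLex x.fn : Lex (W → ℤ))) fun _ _ h =>
    fn_injective (toLex.injective h)

lemma lt_iff (x y : LG W) : x < y ↔ ∃ i, (∀ j, j < i → x.fn j = y.fn j) ∧ x.fn i < y.fn i :=
  Iff.rfl

instance : IsOrderedAddMonoid (LG W) where
  add_le_add_left := by
    intro a b hab c
    rcases eq_or_lt_of_le hab with rfl | h
    · exact le_rfl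
    · refine le_of_lt ?_
      rw [lt_iff] at h ⊢
      obtain ⟨i, h1, h2⟩ := h
      refine ⟨i, fun j hj => ?_, ?_⟩
      · simp [h1 j hj]
      · simpa using h2

/-- the order topology -/
noncomputable instance : TopologicalSpace (LG W) := Preorder.topology _

instance : OrderTopology (LG W) := ⟨rfl⟩

/-- the unit vectors -/
noncomputable def eG (b : W) : LG W := LG.mk (ev b) (AddSubgroup.subset_closure (Or.inl ⟨b, rfl⟩))

/-- the ladders -/
noncomputable def aG (b : W) : LG W := LG.mk (av b) (AddSubgroup.subset_closure (Or.inr ⟨b, rfl⟩))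

@[simp] lemma fn_eG (b : W) : (eG b).fn = ev b := rfl

@[simp] lemma fn_aG (b : W) : (aG b).fn = av b := rfl

lemma eG_pos (b : W) : 0 < eG b := by
  rw [lt_iff]
  refine ⟨b, fun j hj => ?_, ?_⟩
  · rw [fn_eG, ev_ne (ne_of_lt hj)]
    rfl
  · rw [fn_eG, ev_self]
    exact zero_lt_one

instance : NoMaxOrder (LG W) := ⟨fun x => ⟨x + eG (Classical.arbitrary W),
  lt_add_of_pos_right _ (eG_pos _)⟩⟩

instance : NoMinOrder (LG W) := ⟨fun x => ⟨x - eG (Classical.arbitrary W),
  sub_lt_self _ (eG_pos _)⟩⟩

instance : Nontrivial (LG W) := ⟨⟨0, eG (Classical.arbitrary W), (eG_pos _).ne⟩⟩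

/-- the elements which agree with `x` below `d` -/
def cyl (x : LG W) (d : W) : Set (LG W) := {y | ∀ a, a < d → y.fn a = x.fn a}

lemma mem_cyl_self (x : LG W) (d : W) : x ∈ cyl x d := fun _ _ => rfl

lemma cyl_mono (x : LG W) {c d : W} (h : c ≤ d) : cyl x d ⊆ cyl x c :=
  fun _ hy a ha => hy a (lt_of_lt_of_le ha h)

lemma mem_nhds_iff' (x : LG W) (U : Set (LG W)) : U ∈ 𝓝 x ↔ ∃ d, cyl x d ⊆ U := by
  rw [mem_nhds_iff_exists_Ioo_subset]
  constructor
  · rintro ⟨l, u, ⟨hl, hu⟩, hU⟩
    obtain ⟨i, hi1, hi2⟩ := (lt_iff _ _).1 hl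
    obtain ⟨k, hk1, hk2⟩ := (lt_iff _ _).1 hu
    obtain ⟨d, hd⟩ := exists_gt' (max i k)
    have hid : i < d := lt_of_le_of_lt (le_max_left _ _) hd
    have hkd : k < d := lt_of_le_of_lt (le_max_right _ _) hd
    refine ⟨d, fun y hy => hU ⟨?_, ?_⟩⟩
    · rw [lt_iff]
      refine ⟨i, fun j hj => ?_, ?_⟩
      · rw [hi1 j hj, hy j (hj.trans hid)]
      · rw [hy i hid]
        exact hi2
    · rw [lt_iff]
      refine ⟨k, fun j hj => ?_, ?_⟩
      · rw [← hk1 j hj, hy j (hj.trans hkd)]
      · rw [hy k hkd]
        exact hk2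
  · rintro ⟨d, hd⟩
    refine ⟨x - eG d, x + eG d, ⟨sub_lt_self _ (eG_pos _), lt_add_of_pos_right _ (eG_pos _)⟩,
      fun y hy => hd fun a ha => ?_⟩
    -- induction on the first difference
    induction a using WellFounded.induction (wellFounded_lt (α := W)) with
    | _ a ih =>
      have hprev : ∀ j, j < a → y.fn j = x.fn j := fun j hj => ih j hj (hj.trans ha)
      have he : ∀ j, j ≤ a → ev d j = 0 := fun j hj => ev_ne (ne_of_lt (lt_of_le_of_lt hj ha))
      rcases lt_trichotomy (y.fn a) (x.fn a) with h | h | h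
      · exfalso
        have : y < x - eG d := by
          rw [lt_iff]
          refine ⟨a, fun j hj => ?_, ?_⟩
          · rw [fn_sub, fn_eG, Pi.sub_apply, he j hj.le, sub_zero, hprev j hj]
          · rw [fn_sub, fn_eG, Pi.sub_apply, he a le_rfl, sub_zero]
            exact h
        exact absurd hy.1 (not_lt.2 this.le)
      · exact h
      · exfalso
        have : x + eG d < y := by
          rw [lt_iff]
          refine ⟨a, fun j hj => ?_, ?_⟩
          · rw [fn_add, fn_eG, Pi.add_apply, he j hj.le, add_zero, hprev j hj]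
          · rw [fn_add, fn_eG, Pi.add_apply, he a le_rfl, add_zero]
            exact h
        exact absurd hy.2 (not_lt.2 this.le)

lemma isOpen_cyl (x : LG W) (d : W) : IsOpen (cyl x d) := by
  rw [isOpen_iff_mem_nhds]
  intro y hy
  rw [mem_nhds_iff']
  exact ⟨d, fun z hz a ha => (hz a ha).trans (hy a ha)⟩

lemma isClopen_cyl (x : LG W) (d : W) : IsClopen (cyl x d) := by
  refine ⟨⟨?_⟩, isOpen_cyl x d⟩
  rw [isOpen_iff_mem_nhds]
  intro y hy
  rw [mem_nhds_iff']
  refine ⟨d, fun z hz hz' => hy fun a ha => ?_⟩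
  rw [← hz a ha, hz' a ha]

instance : TotallySeparatedSpace (LG W) := by
  rw [totallySeparatedSpace_iff_exists_isClopen]
  intro x y hxy
  have : ∃ a, x.fn a ≠ y.fn a := by
    by_contra hcon
    push Not at hcon
    exact hxy (fn_injective (funext hcon))
  obtain ⟨a, ha⟩ := this
  obtain ⟨d, hd⟩ := exists_gt' a
  exact ⟨cyl x d, isClopen_cyl x d, mem_cyl_self x d, fun h => ha (h a hd).symm⟩

/-- small sets of elements are generated below some index -/
lemma exists_GS_of_sm {A : Set (LG W)} (hA : Sm W A) :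
    ∃ b : W, ∀ x ∈ A, x.fn ∈ GS b := by
  choose! f hf using fun x : LG W => exists_mem_GS (fn_mem x)
  obtain ⟨b, hb⟩ := exists_bound (hA.image f)
  exact ⟨b, fun x hx => GS_mono (hb _ ⟨x, hx, rfl⟩).le (hf x)⟩

lemma Sm.of_image {α β : Type} {f : α → β} (hf : Function.Injective f) {s : Set α}
    (h : Sm W (f '' s)) : Sm W s := by
  unfold Sm at h ⊢
  rwa [Cardinal.mk_image_eq hf] at h

/-- a set whose points outside of every neighbourhood of zero form a closed discrete set does not
generate a dense subgroup -/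
theorem no_suitable (S : Set (LG W)) (hS : IsClosed (S ∪ {0})) (hd : DiscreteTopology S) :
    ¬ Dense (AddSubgroup.closure S : Set (LG W)) := by
  classical
  intro hdense
  -- the elements outside of a neighbourhood of zero
  have hct : ∀ d : W, Sm W {x ∈ S | x ∉ cyl 0 d} := by
    intro d
    have hinj : Sm W ((LG.fn) '' {x ∈ S | x ∉ cyl 0 d}) := by
      refine sm_of_locally (W := W) ?_ ?_
      · rintro _ ⟨x, _, rfl⟩
        exact fn_mem x
      · intro y hy
        set y' : LG W := LG.mk y hy with hy'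
        have key : ∃ c : W, Sm W {x ∈ S | x ∉ cyl 0 d ∧ x ∈ cyl y' c} := by
          by_cases h0 : y' = 0
          · refine ⟨d, ?_⟩
            have : {x ∈ S | x ∉ cyl 0 d ∧ x ∈ cyl y' d} = ∅ := by
              ext x
              simp only [mem_ofPred_eq, mem_empty_iff_false, iff_false]
              rintro ⟨_, h1, h2⟩
              rw [h0] at h2
              exact h1 h2
            rw [this]
            exact sm_empty
          · by_cases hyS : y' ∈ S
            · -- discreteness
              have h1 : ({⟨y', hyS⟩} : Set S) ∈ 𝓝 (⟨y', hyS⟩ : S) :=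
                (isOpen_discrete _).mem_nhds rfl
              rw [nhds_subtype_eq_comap, mem_comap] at h1
              obtain ⟨t, ht, hts⟩ := h1
              obtain ⟨c, hc⟩ := (mem_nhds_iff' _ _).1 ht
              refine ⟨c, (sm_singleton y').mono ?_⟩
              rintro x ⟨hxS, -, hxc⟩
              have h2 : (⟨x, hxS⟩ : S) ∈ ({⟨y', hyS⟩} : Set S) := hts (hc hxc)
              exact congrArg Subtype.val (mem_singleton_iff.1 h2)
            · have hyc : y' ∉ S ∪ {0} := by
                rintro (h | h)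
                · exact hyS h
                · exact h0 h
              have h1 : (S ∪ {0})ᶜ ∈ 𝓝 y' := hS.isOpen_compl.mem_nhds hyc
              obtain ⟨c, hc⟩ := (mem_nhds_iff' _ _).1 h1
              refine ⟨c, ?_⟩
              have : {x ∈ S | x ∉ cyl 0 d ∧ x ∈ cyl y' c} = ∅ := by
                ext x
                simp only [mem_ofPred_eq, mem_empty_iff_false, iff_false]
                rintro ⟨h1, _, h2⟩
                exact hc h2 (Or.inl h1)
              rw [this]
              exact sm_empty
        obtain ⟨c, hc⟩ := key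
        refine ⟨c, (hc.image LG.fn).mono ?_⟩
        rintro _ ⟨⟨x, ⟨hxS, hxd⟩, rfl⟩, hx⟩
        exact ⟨x, ⟨hxS, hxd, hx⟩, rfl⟩
    exact hinj.of_image fn_injective
  -- bounds
  choose g hg using fun d => exists_GS_of_sm (hct d)
  have hsucc : ∀ a : W, ∃ b, a < b := exists_gt'
  choose s hs using hsucc
  obtain ⟨e, -, he, hcl⟩ := exists_closed (fun a => max (g a) (s a)) (Classical.arbitrary W)
  have hgood : ∀ x ∈ AddSubgroup.closure S, Good x.fn e := by
    intro x hx
    induction hx using AddSubgroup.closure_induction with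
    | mem x hx =>
      by_cases h : x ∈ cyl 0 e
      · obtain ⟨b, hb⟩ := he.exists_lt
        exact ⟨b, hb, 0, zero_mem _, fun a ha => h a ha⟩
      · have : ∃ a, a < e ∧ x.fn a ≠ 0 := by
          by_contra hcon
          push Not at hcon
          exact h hcon
        obtain ⟨a, ha, hxa⟩ := this
        have h1 : s a < e := lt_of_le_of_lt (le_max_right _ _) (hcl a ha)
        have h2 : g (s a) < e := lt_of_le_of_lt (le_max_left _ _) (hcl _ h1)
        refine good_of_mem h2 (hg (s a) x ⟨hx, fun h' => hxa ?_⟩)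
        exact h' a (hs a)
    | zero => exact good_zero he
    | add x y _ _ hx hy => exact good_add hx hy
    | neg x _ hx => exact good_neg hx
  obtain ⟨x, hx, hxS⟩ := hdense.inter_open_nonempty _ (isOpen_cyl (aG e) e)
    ⟨aG e, mem_cyl_self _ _⟩
  obtain ⟨b, hb, y, hy, hxy⟩ := hgood x hxS
  obtain ⟨a, hba, hae, hne⟩ := av_cofinal he hb
  apply hne
  have h1 := hx a hae
  rw [fn_aG] at h1
  rw [← h1, hxy a hae, GS_support hy a hba]

end Pool.Agent.V11281.Lad
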